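import Mathlib
import Pool.Agent.Y626.PAC.Sim

set_option autoImplicit false

/-!
# PAC learnability for totally bounded families is a local property

Let `F` be a nonempty class of measurable functions with values in `[0, 1]` and let `Qf` be a family
of probability measures that is totally bounded in total variation. The starting file `Full` shows
that learnability passes from `Qf` to its closed convex hull. Here learnability with respect to `Qf`
is characterized: it holds if and only if the class is learnable for every single member of the
closure of `Qf`, and this in turn can be checked locally: it is enough that each set of positive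
`Q`-measure is charged by some `R ≪ Q` in the closed convex hull of some totally bounded family for
which the class is learnable (this family may depend on `Q` and on the set). For instance, if `F` is
learnable for each of the distributions `R₁, R₂, ...`, then it is learnable for every distribution
with the same null sets as a mixture of them, and for every compact family of such distributions; so
learnability only depends on the null sets of the members of the closure.

Proof: samples from `Q` are reweighted by bounded densities to simulate samples from `R ≪ Q`; a
weighted majority vote gives a learner for `R` that uses samples from `Q`; by exhaustion finitely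
many such `R` carry almost all of `Q`; finally the space of probability measures is complete in
total variation, so that the closure of `Qf` is compact and finitely many of these learners suffice.
-/

open MeasureTheory

namespace Pool.Agent.Results.MP_ab635e_lc.LocalLearnability

open Pool.Agent.Results.MP_ab635e_lc.Full Pool.Agent.Y626.PAC

variable {X : Type*} [MeasurableSpace X]

lemma mem_tvClosure_self {Qf : Set (ProbabilityMeasure X)} {Q : ProbabilityMeasure X}
    (hQ : Q ∈ Qf) : Q ∈ tvClosure Qf := fun ε hε => ⟨Q, hQ, by rw [rho_self]; exact hε⟩

lemma mem_convHull_self {Qf : Set (ProbabilityMeasure X)} {Q : ProbabilityMeasure X}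
    (hQ : Q ∈ Qf) : Q ∈ convHull Qf :=
  ⟨1, fun _ => 1, fun _ => Q, fun _ => hQ, by simp, by simp⟩

lemma tvClosure_mono {A B : Set (ProbabilityMeasure X)} (h : A ⊆ B) :
    tvClosure A ⊆ tvClosure B := fun Q hQ ε hε => by
  obtain ⟨P, hP, hPQ⟩ := hQ ε hε
  exact ⟨P, h hP, hPQ⟩

lemma totBdd_singleton (Q : ProbabilityMeasure X) : TotBdd {Q} := fun ε hε =>
  ⟨{Q}, fun P hP => ⟨Q, by simp, by rw [Set.mem_singleton_iff.1 hP, rho_self]; exact hε⟩⟩

lemma pacLearnable_mono {F : Set (X → unitInterval)} {A B : Set (ProbabilityMeasure X)}
    (h : A ⊆ B) (hB : PACLearnable F B) : PACLearnable F A := by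
  obtain ⟨L, hL⟩ := hB
  refine ⟨L, fun ε hε => ?_⟩
  refine tendsto_of_tendsto_of_tendsto_of_le_of_le tendsto_const_nhds (hL ε hε)
    (fun _ => zero_le) fun m => ?_
  exact iSup₂_le fun P hP => le_iSup₂_of_le P (h hP) le_rfl

/-- Let `F` be a nonempty class of measurable functions with values in `[0, 1]` and `Qf` a totally
bounded family of probability measures. The following are equivalent:

1. `F` is PAC learnable with respect to `Qf`;
2. `F` is PAC learnable with respect to `{Q}`, for every `Q` in the closure of `Qf`;
3. `F` is PAC learnable with respect to the closed convex hull of `Qf`;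
4. for every `Q` in the closure of `Qf` and every measurable set `E` with `Q(E) > 0` there are a
   totally bounded family `Pf` such that `F` is PAC learnable with respect to `Pf` and a member `R`
   of the closed convex hull of `Pf` such that `R` is absolutely continuous with respect to `Q` and
   `R(E) > 0`. -/
theorem result {X : Type*} [MeasurableSpace X] (F : Set (X → unitInterval))
    (hF : ∀ f ∈ F, Measurable f) (hne : F.Nonempty) (Qf : Set (ProbabilityMeasure X))
    (hQf : TotBdd Qf) :
    List.TFAE [
      PACLearnable F Qf,
      ∀ Q ∈ tvClosure Qf, PACLearnable F {Q},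
      PACLearnable F (tvClosure (convHull Qf)),
      ∀ Q ∈ tvClosure Qf, ∀ E : Set X, MeasurableSet E → (Q : Measure X) E ≠ 0 →
        ∃ (Pf : Set (ProbabilityMeasure X)) (R : ProbabilityMeasure X),
          TotBdd Pf ∧ PACLearnable F Pf ∧ R ∈ tvClosure (convHull Pf) ∧
            (R : Measure X) ≪ (Q : Measure X) ∧ (R : Measure X) E ≠ 0] := by
  have hne' : Nonempty F := hne.to_subtype
  tfae_have 1 → 3 := fun h => (Full.result Qf F hQf hF h).2.2
  tfae_have 3 → 2 := fun h Q hQ => pacLearnable_mono
    (Set.singleton_subset_iff.2 (tvClosure_mono (fun _ => mem_convHull_self) hQ)) h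
  tfae_have 2 → 4 := fun h Q hQ E _ hE =>
    ⟨{Q}, Q, totBdd_singleton Q, h Q hQ, mem_tvClosure_self (mem_convHull_self rfl),
      Measure.AbsolutelyContinuous.rfl, hE⟩
  tfae_have 4 → 1 := by
    intro h
    refine pacLearnable_of_closure hF hne' hQf fun Q hQ => ?_
    refine learn1_of_local hF hne' fun E hE hQE => ?_
    obtain ⟨Pf, R, h1, h2, h3, h4, h5⟩ := h Q hQ E hE hQE
    exact ⟨R, h4, h5, learn1_of_pacLearnable (Full.result Pf F h1 hF h2).2.2 h3⟩
  tfae_finish

end Pool.Agent.Results.MP_ab635e_lc.LocalLearnability
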